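import Mathlib

set_option autoImplicit false

namespace Pool.Agent.Results.MP_ffb385_an.Spaceable

open Set Filter Topology
open scoped ContDiff

section tower
variable {E : Type} [NormedAddCommGroup E] [NormedSpace ℝ E]

theorem tower (F : ℕ → ℝ → E) (h : ∀ n x, HasDerivAt (F n) (F (n + 1) x) x) :
    (∀ n, iteratedDeriv n (F 0) = F n) ∧ ContDiff ℝ ∞ (F 0) := by
  have h1 : ∀ n, iteratedDeriv n (F 0) = F n := by
    intro n
    induction n with
    | zero => simp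
    | succ n ih => rw [iteratedDeriv_succ, ih]; funext x; exact (h n x).deriv
  refine ⟨h1, contDiff_of_differentiable_iteratedDeriv fun m _ => ?_⟩
  rw [h1]; exact fun x => (h m x).differentiableAt

end tower

/-- Centres of the bumps. -/
noncomputable def p (j : ℕ) : ℝ := (1 / 2) * (1 / 4) ^ j

theorem p_pos (j : ℕ) : 0 < p j := by unfold p; positivity

theorem p_le {i j : ℕ} (h : i ≤ j) : p j ≤ p i := by
  unfold p
  exact mul_le_mul_of_nonneg_left (pow_le_pow_of_le_one (by norm_num) (by norm_num) h)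
    (by norm_num)

theorem p_lt {i j : ℕ} (h : i < j) : p j ≤ p i / 4 := by
  have := p_le (Nat.succ_le_of_lt h)
  unfold p at this ⊢
  rw [pow_succ] at this
  linarith

theorem p_half (j : ℕ) : p j ≤ 1 / 2 := by simpa [p] using p_le (Nat.zero_le j)

theorem p_tendsto : Tendsto p atTop (𝓝 0) := by
  have := (tendsto_pow_atTop_nhds_zero_of_lt_one (r := (1 / 4 : ℝ)) (by norm_num)
    (by norm_num)).const_mul (1 / 2)
  rw [mul_zero] at this
  exact this

noncomputable def bump (j : ℕ) : ContDiffBump (p j) :=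
  ⟨p j / 8, p j / 4, by have := p_pos j; positivity, by have := p_pos j; linarith⟩

/-- Bump functions with disjoint supports accumulating at zero. -/
noncomputable def h (j : ℕ) (x : ℝ) : ℝ := bump j x

theorem h_smooth (j : ℕ) : ContDiff ℝ ∞ (h j) := (bump j).contDiff

theorem h_self (j : ℕ) : h j (p j) = 1 :=
  (bump j).one_of_mem_closedBall (Metric.mem_closedBall_self (bump j).rIn_pos.le)

theorem h_zero (j : ℕ) {x : ℝ} (hx : x ≤ 3 / 4 * p j ∨ 5 / 4 * p j ≤ x) : h j x = 0 := by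
  refine (bump j).zero_of_le_dist ?_
  show p j / 4 ≤ _
  rw [Real.dist_eq, le_abs]
  rcases hx with hx | hx
  · right; linarith
  · left; linarith

theorem h_abs (j : ℕ) (x : ℝ) : |h j x| ≤ 1 :=
  abs_le.2 ⟨le_trans (by norm_num) (bump j).nonneg, (bump j).le_one⟩

theorem h_deriv (j n : ℕ) (x : ℝ) :
    HasDerivAt (iteratedDeriv n (h j)) (iteratedDeriv (n + 1) (h j) x) x := by
  rw [iteratedDeriv_succ]
  exact (((h_smooth j).differentiable_iteratedDeriv n (by exact_mod_cast ENat.natCast_lt_top n))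
    x).hasDerivAt

theorem exists_C : ∃ C : ℕ → ℕ → ℝ, (∀ j n, 0 ≤ C j n) ∧
    ∀ j n, ∀ x ∈ Icc (0 : ℝ) 1, |iteratedDeriv n (h j) x| ≤ C j n := by
  have : ∀ j n, ∃ c : ℝ, 0 ≤ c ∧ ∀ x ∈ Icc (0 : ℝ) 1, |iteratedDeriv n (h j) x| ≤ c := by
    intro j n
    obtain ⟨c, hc⟩ := (isCompact_Icc (a := (0 : ℝ)) (b := 1)).exists_bound_of_continuousOn
      (f := iteratedDeriv n (h j)) fun x _ => (h_deriv j n x).continuousAt.continuousWithinAt
    exact ⟨c, (norm_nonneg _).trans (hc 0 (by simp)), hc⟩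
  choose C h1 h2 using this
  exact ⟨C, h1, h2⟩

noncomputable def C : ℕ → ℕ → ℝ := exists_C.choose

theorem C_nonneg (j n : ℕ) : 0 ≤ C j n := exists_C.choose_spec.1 j n

theorem C_spec (j n : ℕ) {x : ℝ} (hx : x ∈ Icc (0 : ℝ) 1) : |iteratedDeriv n (h j) x| ≤ C j n :=
  exists_C.choose_spec.2 j n x hx

noncomputable def M (k : ℕ) : ℝ :=
  1 + ∑ n ∈ Finset.range (2 * k + 3), ((∑ j ∈ Finset.range k, C j n) + n.factorial * k ^ n)

theorem M_term (k n : ℕ) : 0 ≤ (∑ j ∈ Finset.range k, C j n) + (n.factorial : ℝ) * k ^ n :=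
  add_nonneg (Finset.sum_nonneg fun j _ => C_nonneg j n) (by positivity)

theorem one_le_M (k : ℕ) : 1 ≤ M k :=
  le_add_of_nonneg_right (Finset.sum_nonneg fun n _ => M_term k n)

theorem le_M {k n : ℕ} (hn : n ≤ 2 * k + 2) :
    1 + ((∑ j ∈ Finset.range k, C j n) + (n.factorial : ℝ) * k ^ n) ≤ M k :=
  add_le_add le_rfl (Finset.single_le_sum
    (f := fun n => (∑ j ∈ Finset.range k, C j n) + (n.factorial : ℝ) * k ^ n)
    (fun n _ => M_term k n) (Finset.mem_range.2 (by omega)))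

/-- Frequencies. -/
noncomputable def L : ℕ → ℝ
  | 0 => 1
  | k + 1 => 2 ^ (k + 3) * (k + 1) * ((k + 1) * L k ^ (2 * k + 4) + M (k + 1))

theorem L_step (k : ℕ) (hk : 1 ≤ L k) : L k ≤ L (k + 1) := by
  have h1 : L k ≤ L k ^ (2 * k + 4) := le_self_pow₀ hk (by omega)
  have h2 : (1 : ℝ) ≤ 2 ^ (k + 3) := one_le_pow₀ (by norm_num)
  have h3 : (1 : ℝ) ≤ k + 1 := by linarith [Nat.cast_nonneg (α := ℝ) k]
  have h4 := one_le_M (k + 1)
  have h5 : L k ≤ (k + 1) * L k ^ (2 * k + 4) + M (k + 1) := by nlinarith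
  have h6 : (1 : ℝ) ≤ 2 ^ (k + 3) * (k + 1) := by nlinarith
  rw [L]
  nlinarith

theorem one_le_L (k : ℕ) : 1 ≤ L k := by
  induction k with
  | zero => simp [L]
  | succ k ih => exact ih.trans (L_step k ih)

theorem L_mono : Monotone L := monotone_nat_of_le_succ fun k => L_step k (one_le_L k)

/-- Size of the term number l in the derivative of order n. -/
noncomputable def w (n l : ℕ) : ℝ := (1 / 2) ^ l / 4 / L l ^ (2 * l) * L l ^ n

theorem w_nonneg (n l : ℕ) : 0 ≤ w n l := by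
  have := one_le_L l
  unfold w; positivity

theorem w_small {n l : ℕ} (h : n ≤ 2 * l) : w n l ≤ (1 / 2) ^ l / 4 := by
  have h1 := one_le_L l
  have h2 : L l ^ n ≤ L l ^ (2 * l) := pow_le_pow_right₀ h1 h
  unfold w
  rw [div_mul_eq_mul_div, div_le_iff₀ (by positivity)]
  exact mul_le_mul_of_nonneg_left h2 (by positivity)

theorem w_le (n l : ℕ) : w n l ≤ L l ^ n := by
  have h1 := w_small (Nat.zero_le (2 * l))
  have h2 : (1 / 2 : ℝ) ^ l ≤ 1 := pow_le_one₀ (by norm_num) (by norm_num)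
  have h3 := one_le_L l
  unfold w at h1 ⊢
  rw [pow_zero, mul_one] at h1
  exact mul_le_of_le_one_left (by positivity) (by linarith)

theorem w_big {n k : ℕ} (h : 2 * (k + 1) + 1 ≤ n) :
    (k + 1) * ((k + 1) * L k ^ (2 * k + 4) + M (k + 1)) ≤ w n (k + 1) := by
  have h1 := one_le_L (k + 1)
  have h2 : L (k + 1) ^ (2 * (k + 1) + 1) ≤ L (k + 1) ^ n := pow_le_pow_right₀ h1 h
  have h3 : (k + 1) * ((k + 1) * L k ^ (2 * k + 4) + M (k + 1)) =
      (1 / 2) ^ (k + 1) / 4 / L (k + 1) ^ (2 * (k + 1)) * L (k + 1) ^ (2 * (k + 1) + 1) := by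
    rw [pow_succ (L (k + 1)), ← mul_assoc, div_mul_cancel₀ _ (by positivity), L]
    rw [one_div, inv_pow]
    field_simp
    ring
  rw [h3]
  unfold w
  exact mul_le_mul_of_nonneg_left h2 (by positivity)

theorem hasSum_geo : HasSum (fun l : ℕ => (1 / 2 : ℝ) ^ l / 4) (1 / 2) := by
  have := hasSum_geometric_two.div_const 4
  norm_num at this ⊢
  exact this

theorem w_summable (n : ℕ) : Summable (w n) := by
  refine Summable.of_norm_bounded_eventually_nat hasSum_geo.summable ?_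
  filter_upwards [eventually_ge_atTop n] with l hl
  rw [Real.norm_of_nonneg (w_nonneg n l)]
  exact w_small (by omega)

variable {𝕜 : Type} [RCLike 𝕜]

abbrev B (𝕜 : Type) [RCLike 𝕜] : Type := lp (fun _ : ℕ => 𝕜) ⊤

theorem B_le (a : B 𝕜) (j : ℕ) : ‖a j‖ ≤ ‖a‖ := lp.norm_apply_le_norm (by simp) a j

noncomputable def U (a : B 𝕜) (n l : ℕ) (x : ℝ) : 𝕜 :=
  (w n l * Real.cos (L l * x + n * (Real.pi / 2))) • a (Nat.unpair l).1

theorem U_norm (a : B 𝕜) (n l : ℕ) (x : ℝ) : ‖U a n l x‖ ≤ ‖a‖ * w n l := by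
  unfold U
  rw [norm_smul, Real.norm_eq_abs, abs_mul, abs_of_nonneg (w_nonneg n l), mul_comm ‖a‖]
  exact mul_le_mul (mul_le_of_le_one_right (w_nonneg n l) (Real.abs_cos_le_one _)) (B_le a _)
    (norm_nonneg _) (w_nonneg n l)

theorem U_deriv (a : B 𝕜) (n l : ℕ) (x : ℝ) : HasDerivAt (U a n l) (U a (n + 1) l x) x := by
  unfold U
  refine HasDerivAt.smul_const ?_ _
  have h1 : HasDerivAt (fun x => L l * x + n * (Real.pi / 2)) (L l) x := by
    simpa using ((hasDerivAt_id x).const_mul (L l)).add_const (n * (Real.pi / 2))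
  convert (h1.cos).const_mul (w n l) using 1
  have : L l * x + ((n + 1 : ℕ) : ℝ) * (Real.pi / 2) =
      L l * x + n * (Real.pi / 2) + Real.pi / 2 := by push_cast; ring
  rw [this, Real.cos_add_pi_div_two]
  unfold w; ring

theorem U_summable (a : B 𝕜) (n : ℕ) (x : ℝ) : Summable fun l => U a n l x :=
  Summable.of_norm_bounded ((w_summable n).mul_left ‖a‖) fun l => U_norm a n l x

noncomputable def S (a : B 𝕜) (n : ℕ) (x : ℝ) : 𝕜 := ∑' l, U a n l x

theorem S_deriv (a : B 𝕜) (n : ℕ) (x : ℝ) : HasDerivAt (S a n) (S a (n + 1) x) x :=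
  hasDerivAt_tsum ((w_summable (n + 1)).mul_left ‖a‖) (fun l y => U_deriv a n l y)
    (fun l y => U_norm a (n + 1) l y) (U_summable a n 0) x

theorem S_zero_le (a : B 𝕜) (x : ℝ) : ‖S a 0 x‖ ≤ ‖a‖ * (1 / 2) :=
  tsum_of_norm_bounded (hasSum_geo.mul_left ‖a‖) fun l =>
    (U_norm a 0 l x).trans (mul_le_mul_of_nonneg_left (w_small (Nat.zero_le _)) (norm_nonneg _))

theorem S_lower (a : B 𝕜) (k n : ℕ) (hn : n ≤ 2 * k + 4) (x : ℝ) :
    ‖U a n (k + 1) x‖ ≤ ‖S a n x‖ + ‖a‖ * ((k + 1) * L k ^ (2 * k + 4) + 1 / 2) := by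
  have h1 := (U_summable a n x).tsum_eq_add_tsum_ite (k + 1)
  have h2 : HasSum (fun l : ℕ => if l ∈ Finset.range (k + 1) then L k ^ (2 * k + 4) else 0)
      ((k + 1) * L k ^ (2 * k + 4)) := by
    have := hasSum_sum_of_ne_finset_zero
      (f := fun l : ℕ => if l ∈ Finset.range (k + 1) then L k ^ (2 * k + 4) else 0)
      (s := Finset.range (k + 1)) (L := SummationFilter.unconditional ℕ)
      (fun b hb => if_neg hb)
    rw [Finset.sum_congr rfl fun l hl => if_pos hl] at this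
    simpa using this
  have h3 : ‖∑' l, if l = k + 1 then 0 else U a n l x‖ ≤
      ‖a‖ * ((k + 1) * L k ^ (2 * k + 4) + 1 / 2) := by
    refine tsum_of_norm_bounded ((h2.add hasSum_geo).mul_left ‖a‖) fun l => ?_
    have hL := one_le_L k
    split_ifs with c1 c2 c2
    · rw [norm_zero]; positivity
    · rw [norm_zero]; positivity
    · refine (U_norm a n l x).trans (mul_le_mul_of_nonneg_left ?_ (norm_nonneg _))
      have hl : l ≤ k := by simpa [Nat.lt_succ_iff] using c2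
      have e1 : L l ^ n ≤ L k ^ n :=
        pow_le_pow_left₀ (zero_le_one.trans (one_le_L l)) (L_mono hl) n
      have e2 : L k ^ n ≤ L k ^ (2 * k + 4) := pow_le_pow_right₀ hL hn
      have e3 : (0 : ℝ) ≤ (1 / 2) ^ l / 4 := by positivity
      linarith [w_le n l]
    · refine (U_norm a n l x).trans (mul_le_mul_of_nonneg_left ?_ (norm_nonneg _))
      have hl : ¬ l < k + 1 := by simpa using c2
      rw [zero_add]
      exact w_small (by omega)
  have h4 : U a n (k + 1) x = S a n x - ∑' l, if l = k + 1 then 0 else U a n l x := by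
    unfold S; rw [h1]; ring
  rw [h4]
  exact (norm_sub_le _ _).trans (add_le_add le_rfl h3)

noncomputable def H (a : B 𝕜) (x : ℝ) : 𝕜 := ∑' j, h j x • a j

theorem H_eq (a : B 𝕜) {x : ℝ} {J : ℕ} (hx : ∀ j, J ≤ j → h j x = 0) :
    H a x = ∑ j ∈ Finset.range J, h j x • a j :=
  tsum_eq_sum fun j hj => by rw [hx j (by simpa using hj), zero_smul]

theorem exists_J {x : ℝ} (hx : 0 < x) : ∃ J, ∀ y, x / 2 < y → ∀ j, J ≤ j → h j y = 0 := by
  obtain ⟨J, hJ⟩ := eventually_atTop.1 (p_tendsto.eventually (gt_mem_nhds (half_pos (half_pos hx))))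
  exact ⟨J, fun y hy j hj => h_zero j (Or.inr (by linarith [hJ j hj]))⟩

theorem exists_J' (x : ℝ) : ∃ J, ∀ j, J ≤ j → h j x = 0 := by
  rcases le_or_gt x 0 with hx | hx
  · exact ⟨0, fun j _ => h_zero j (Or.inl (by linarith [p_pos j]))⟩
  · obtain ⟨J, hJ⟩ := exists_J hx
    exact ⟨J, hJ x (by linarith)⟩

/-- The parametrisation of the subspace by bounded sequences. -/
noncomputable def T (𝕜 : Type) [RCLike 𝕜] : B 𝕜 →ₗ[𝕜] (ℝ → 𝕜) where
  toFun a := (Icc (0 : ℝ) 1).indicator fun x => H a x + S a 0 x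
  map_add' a b := by
    rw [← indicator_add']
    congr 1
    funext x
    obtain ⟨J, hJ⟩ := exists_J' x
    have e : S (a + b) 0 x = S a 0 x + S b 0 x := by
      unfold S
      rw [← (U_summable a 0 x).tsum_add (U_summable b 0 x)]
      simp [U]
    simp only [Pi.add_apply, H_eq _ hJ, e, lp.coeFn_add, smul_add, Finset.sum_add_distrib]
    ring
  map_smul' c a := by
    rw [RingHom.id_apply]
    refine Eq.trans ?_ (indicator_const_smul (Icc (0 : ℝ) 1) c fun x => H a x + S a 0 x)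
    congr 1
    funext x
    obtain ⟨J, hJ⟩ := exists_J' x
    have e : S (c • a) 0 x = c • S a 0 x := by
      unfold S
      rw [← (U_summable a 0 x).tsum_const_smul c]
      simp only [U, lp.coeFn_smul, Pi.smul_apply]
      exact tsum_congr fun l => smul_comm _ _ _
    simp only [H_eq _ hJ, e, lp.coeFn_smul, Pi.smul_apply, smul_add, Finset.smul_sum]
    congr 1
    exact Finset.sum_congr rfl fun j _ => smul_comm _ _ _

theorem T_apply (a : B 𝕜) {x : ℝ} (hx : x ∈ Icc (0 : ℝ) 1) : T 𝕜 a x = H a x + S a 0 x :=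
  indicator_of_mem hx fun x => H a x + S a 0 x

theorem T_out (a : B 𝕜) {x : ℝ} (hx : x ∉ Icc (0 : ℝ) 1) : T 𝕜 a x = 0 :=
  indicator_of_notMem hx fun x => H a x + S a 0 x

theorem T_bound (x : ℝ) : ∃ c : ℝ, ∀ a : B 𝕜, ‖T 𝕜 a x‖ ≤ c * ‖a‖ := by
  obtain ⟨J, hJ⟩ := exists_J' x
  refine ⟨J + 1 / 2, fun a => ?_⟩
  by_cases hx : x ∈ Icc (0 : ℝ) 1
  · rw [T_apply a hx, H_eq a hJ]
    have h1 : ‖∑ j ∈ Finset.range J, h j x • a j‖ ≤ J * ‖a‖ := by
      refine (norm_sum_le_of_le _ (n := fun _ => ‖a‖) fun j _ => ?_).trans (by simp)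
      rw [norm_smul, Real.norm_eq_abs]
      exact (mul_le_of_le_one_left (norm_nonneg _) (h_abs j x)).trans (B_le a j)
    linarith [norm_add_le (∑ j ∈ Finset.range J, h j x • a j) (S a 0 x), S_zero_le a x]
  · rw [T_out a hx, norm_zero]; positivity

theorem H_p (a : B 𝕜) (j : ℕ) : H a (p j) = a j := by
  unfold H
  rw [tsum_eq_single j, h_self, one_smul]
  intro i hi
  rw [h_zero i, zero_smul]
  rcases lt_or_gt_of_ne hi with h | h
  · left; linarith [p_lt h, p_pos i]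
  · right; linarith [p_lt h, p_pos j]

theorem T_lower (a : B 𝕜) {ε : ℝ} (hε : ∀ x ∈ Icc (0 : ℝ) 1, ‖T 𝕜 a x‖ ≤ ε) : ‖a‖ ≤ 2 * ε := by
  have h0 : 0 ≤ ε := (norm_nonneg _).trans (hε 0 (by simp))
  have : ‖a‖ ≤ ε + ‖a‖ * (1 / 2) := by
    refine lp.norm_le_of_forall_le (by positivity) fun j => ?_
    have hp : p j ∈ Icc (0 : ℝ) 1 := ⟨(p_pos j).le, by linarith [p_half j]⟩
    have h1 := hε _ hp
    rw [T_apply a hp, H_p] at h1
    have h2 := norm_sub_le (a j + S a 0 (p j)) (S a 0 (p j))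
    rw [add_sub_cancel_right] at h2
    linarith [S_zero_le a (p j)]
  linarith

noncomputable def G (a : B 𝕜) (J n : ℕ) (x : ℝ) : 𝕜 :=
  (∑ j ∈ Finset.range J, iteratedDeriv n (h j) x • a j) + S a n x

theorem G_tower (a : B 𝕜) (J : ℕ) :
    (∀ n, iteratedDeriv n (G a J 0) = G a J n) ∧ ContDiff ℝ ∞ (G a J 0) :=
  tower (G a J) fun n x =>
    (HasDerivAt.fun_sum fun j _ => (h_deriv j n x).smul_const (a j)).add (S_deriv a n x)

theorem uI : UniqueDiffOn ℝ (Icc (0 : ℝ) 1) := uniqueDiffOn_Icc one_pos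

theorem D_local (a : B 𝕜) (J n : ℕ) {x : ℝ} (hx : x ∈ Icc (0 : ℝ) 1)
    (hJ : ∀ᶠ y in 𝓝 x, H a y = ∑ j ∈ Finset.range J, h j y • a j) :
    iteratedDerivWithin n (T 𝕜 a) (Icc 0 1) x = G a J n x := by
  have e : T 𝕜 a =ᶠ[𝓝[Icc 0 1] x] G a J 0 := by
    filter_upwards [self_mem_nhdsWithin, mem_nhdsWithin_of_mem_nhds hJ] with y hy1 hy2
    rw [T_apply a hy1, hy2]; simp [G]
  rw [e.iteratedDerivWithin_eq (e.eq_of_nhdsWithin hx), iteratedDerivWithin_eq_iteratedDeriv uI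
    ((G_tower a J).2.of_le (by exact_mod_cast le_top)).contDiffAt hx, (G_tower a J).1]

theorem D_close (a : B 𝕜) (ha : ContDiffOn ℝ ∞ (T 𝕜 a) (Icc 0 1)) {x : ℝ}
    (hx : x ∈ Icc (0 : ℝ) 1) : ∃ J, ∀ n,
    ‖iteratedDerivWithin n (T 𝕜 a) (Icc 0 1) x - S a n x‖ ≤ ‖a‖ * ∑ j ∈ Finset.range J, C j n := by
  rcases hx.1.eq_or_lt with rfl | hx0
  · refine ⟨0, fun n => ?_⟩
    have hq : ∀ j, p j / 2 ∈ Icc (0 : ℝ) 1 := fun j =>
      ⟨by linarith [p_pos j], by linarith [p_half j]⟩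
    have h1 : ∀ j, iteratedDerivWithin n (T 𝕜 a) (Icc 0 1) (p j / 2) - S a n (p j / 2) = 0 := by
      intro j
      rw [D_local a 0 n (hq j)]
      · simp [G]
      · have := p_pos j
        filter_upwards [Ioo_mem_nhds (show 5 / 16 * p j < p j / 2 by linarith)
          (show p j / 2 < 3 / 4 * p j by linarith)] with y hy
        refine H_eq a fun i _ => h_zero i ?_
        rcases le_or_gt i j with h | h
        · left; linarith [p_le h, hy.2]
        · right; linarith [p_lt h, hy.1]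
    have h2 : ContinuousWithinAt
        (fun y => iteratedDerivWithin n (T 𝕜 a) (Icc 0 1) y - S a n y) (Icc 0 1) 0 :=
      (ha.continuousOn_iteratedDerivWithin (by exact_mod_cast le_top) uI 0 hx).sub
        (S_deriv a n 0).continuousAt.continuousWithinAt
    have h3 : Tendsto (fun j => p j / 2) atTop (𝓝[Icc 0 1] 0) :=
      tendsto_nhdsWithin_iff.2 ⟨by simpa using p_tendsto.div_const 2, Eventually.of_forall hq⟩
    have h4 := h2.tendsto.comp h3
    have h5 : ((fun y => iteratedDerivWithin n (T 𝕜 a) (Icc 0 1) y - S a n y) ∘ fun j => p j / 2)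
        = fun _ => 0 := funext h1
    rw [h5] at h4
    rw [tendsto_nhds_unique h4 tendsto_const_nhds]
    simp
  · obtain ⟨J, hJ⟩ := exists_J hx0
    refine ⟨J, fun n => ?_⟩
    rw [D_local a J n hx]
    · rw [G, add_sub_cancel_right, Finset.mul_sum]
      refine norm_sum_le_of_le _ fun j _ => ?_
      rw [norm_smul, Real.norm_eq_abs, mul_comm]
      exact mul_le_mul (B_le a j) (C_spec j n hx) (abs_nonneg _) (norm_nonneg _)
    · filter_upwards [Ioi_mem_nhds (show x / 2 < x by linarith)] with y hy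
      exact H_eq a (hJ y hy)

theorem cos_big (t : ℝ) (n : ℕ) : 1 / 2 ≤ |Real.cos (t + n * (Real.pi / 2))| ∨
    1 / 2 ≤ |Real.cos (t + ((n + 1 : ℕ) : ℝ) * (Real.pi / 2))| := by
  have : t + ((n + 1 : ℕ) : ℝ) * (Real.pi / 2) = t + n * (Real.pi / 2) + Real.pi / 2 := by
    push_cast; ring
  rw [this, Real.cos_add_pi_div_two, abs_neg]
  by_contra hc
  push Not at hc
  have h1 := Real.sin_sq_add_cos_sq (t + n * (Real.pi / 2))
  have h2 := abs_lt.1 hc.1
  have h3 := abs_lt.1 hc.2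
  nlinarith

theorem singular (a : B 𝕜) (ha : ContDiffOn ℝ ∞ (T 𝕜 a) (Icc 0 1)) (h0 : a ≠ 0) {x : ℝ}
    (hx : x ∈ Icc (0 : ℝ) 1) {r : ℝ} (hr : 0 < r) :
    ¬ Summable fun n : ℕ =>
      ‖iteratedDerivWithin n (T 𝕜 a) (Icc 0 1) x‖ / n.factorial * r ^ n := by
  intro hs
  obtain ⟨j, hj⟩ : ∃ j, a j ≠ 0 := by
    by_contra hc
    push Not at hc
    exact h0 (lp.ext (funext hc))
  have hj0 : 0 < ‖a j‖ := norm_pos_iff.2 hj
  obtain ⟨J, hJ⟩ := D_close a ha hx
  obtain ⟨N, hN⟩ := eventually_atTop.1 (hs.tendsto_atTop_zero.eventually (gt_mem_nhds one_pos))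
  obtain ⟨m, hm⟩ := exists_nat_ge (max (2 * (‖a‖ + 1) / ‖a j‖) (1 / r))
  obtain ⟨k, hk⟩ : ∃ k, Nat.pair j (m + N + J + 1) = k + 1 :=
    Nat.exists_eq_succ_of_ne_zero (by have := Nat.right_le_pair j (m + N + J + 1); omega)
  have hk1 : m + N + J + 1 ≤ k + 1 := hk ▸ Nat.right_le_pair j _
  have hk2 : (Nat.unpair (k + 1)).1 = j := by rw [← hk, Nat.unpair_pair]
  obtain ⟨n, hn1, hn2, hn3⟩ : ∃ n : ℕ, 2 * (k + 1) + 1 ≤ n ∧ n ≤ 2 * k + 4 ∧
      1 / 2 ≤ |Real.cos (L (k + 1) * x + n * (Real.pi / 2))| := by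
    rcases cos_big (L (k + 1) * x) (2 * k + 3) with h | h
    · exact ⟨2 * k + 3, by omega, by omega, h⟩
    · exact ⟨2 * k + 3 + 1, by omega, by omega, h⟩
  have hmk : (m : ℝ) ≤ k + 1 := by exact_mod_cast (by omega : m ≤ k + 1)
  have a1 : 2 * (‖a‖ + 1) ≤ (k + 1) * ‖a j‖ := by
    rw [← div_le_iff₀ hj0]; exact ((le_max_left _ _).trans hm).trans hmk
  have a2 : 1 ≤ (k + 1) * r := by
    rw [← div_le_iff₀ hr]; exact ((le_max_right _ _).trans hm).trans hmk
  have b1 := S_lower a k n hn2 x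
  have b2 := w_big hn1
  have b3 := le_M (k := k + 1) (n := n) (by omega)
  have b4 : ∑ j ∈ Finset.range J, C j n ≤ ∑ j ∈ Finset.range (k + 1), C j n :=
    Finset.sum_le_sum_of_subset_of_nonneg (Finset.range_mono (by omega))
      fun i _ _ => C_nonneg i n
  have b5 : w n (k + 1) * (1 / 2) * ‖a j‖ ≤ ‖U a n (k + 1) x‖ := by
    unfold U
    rw [norm_smul, Real.norm_eq_abs, abs_mul, abs_of_nonneg (w_nonneg _ _), hk2]
    exact mul_le_mul_of_nonneg_right (mul_le_mul_of_nonneg_left hn3 (w_nonneg _ _)) hj0.le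
  have b6 := hJ n
  set D := iteratedDerivWithin n (T 𝕜 a) (Icc 0 1) x
  have b7 : ‖S a n x‖ ≤ ‖D‖ + ‖D - S a n x‖ := by
    have := norm_sub_le D (D - S a n x)
    rwa [sub_sub_cancel] at this
  set P := (k + 1 : ℝ) * L k ^ (2 * k + 4)
  set Q := ∑ j ∈ Finset.range (k + 1), C j n
  set F := (n.factorial : ℝ) * ((k + 1 : ℕ) : ℝ) ^ n
  have hP : 0 ≤ P := by have := one_le_L k; positivity
  have hQ : 0 ≤ Q := Finset.sum_nonneg fun i _ => C_nonneg i n
  have hF : 0 ≤ F := by positivity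
  have hA := norm_nonneg a
  have c1 : (‖a‖ + 1) * (P + M (k + 1)) ≤ w n (k + 1) * (1 / 2) * ‖a j‖ := by
    have e1 := mul_le_mul_of_nonneg_right b2 hj0.le
    have e2 := mul_le_mul_of_nonneg_right a1 (show 0 ≤ P + M (k + 1) by linarith)
    nlinarith
  have c2 : ‖a‖ * ∑ j ∈ Finset.range J, C j n ≤ ‖a‖ * Q := mul_le_mul_of_nonneg_left b4 hA
  have c3 : (‖a‖ + 1) * (P + (1 + (Q + F))) ≤ (‖a‖ + 1) * (P + M (k + 1)) :=
    mul_le_mul_of_nonneg_left (by linarith) (by linarith)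
  have c4 : F ≤ ‖D‖ := by nlinarith [mul_nonneg hA hF]
  have c5 := hN n (by omega)
  have c6 : (0 : ℝ) < n.factorial := by exact_mod_cast n.factorial_pos
  have c7 : ((k + 1 : ℕ) : ℝ) ^ n ≤ ‖D‖ / n.factorial := by
    rw [le_div_iff₀ c6, mul_comm]; exact c4
  have c8 : (1 : ℝ) ≤ ((k + 1 : ℕ) : ℝ) ^ n * r ^ n := by
    rw [← mul_pow]; exact one_le_pow₀ (by push_cast; exact a2)
  have c9 := mul_le_mul_of_nonneg_right c7 (pow_pos hr n).le
  linarith

/-- The smooth functions on the unit interval whose Taylor series has radius of convergence zero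
at every point contain, apart from zero, a closed infinite-dimensional subspace. -/
theorem result (𝕜 : Type) [RCLike 𝕜] : ∃ V : Submodule 𝕜 (ℝ → 𝕜),
    (∀ f ∈ V, ContDiffOn ℝ ∞ f (Icc 0 1) ∧ ∀ x, x ∉ Icc (0 : ℝ) 1 → f x = 0) ∧
    ¬ Module.Finite 𝕜 V ∧
    (∀ (F : ℕ → ℝ → 𝕜) (f : ℝ → 𝕜), (∀ m, F m ∈ V) → ContDiffOn ℝ ∞ f (Icc 0 1) →
      (∀ x, x ∉ Icc (0 : ℝ) 1 → f x = 0) →
      (∀ n : ℕ, TendstoUniformlyOn (fun m => iteratedDerivWithin n (F m) (Icc 0 1))
        (iteratedDerivWithin n f (Icc 0 1)) atTop (Icc 0 1)) → f ∈ V) ∧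
    ∀ f ∈ V, f ≠ 0 → ∀ x ∈ Icc (0 : ℝ) 1, ∀ r : ℝ, 0 < r →
      ¬ Summable fun n : ℕ => ‖iteratedDerivWithin n f (Icc 0 1) x‖ / n.factorial * r ^ n := by
  let W : Submodule 𝕜 (ℝ → 𝕜) :=
    { carrier := {f | ContDiffOn ℝ ∞ f (Icc 0 1)}
      add_mem' := fun hf hg => ContDiffOn.add hf hg
      zero_mem' := contDiffOn_const
      smul_mem' := fun c _ hf => ContDiffOn.const_smul c hf }
  refine ⟨LinearMap.range (T 𝕜) ⊓ W, ?_, ?_, ?_, ?_⟩
  · rintro _ ⟨⟨a, rfl⟩, ha⟩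
    exact ⟨ha, fun x hx => T_out a hx⟩
  · intro hfin
    have hmem : ∀ j : ℕ, T 𝕜 (lp.single ⊤ j (1 : 𝕜) : B 𝕜) ∈ LinearMap.range (T 𝕜) ⊓ W := by
      intro j
      refine ⟨⟨_, rfl⟩, ?_⟩
      refine ((G_tower (lp.single ⊤ j (1 : 𝕜) : B 𝕜) (j + 1)).2.contDiffOn).congr fun x hx => ?_
      rw [T_apply _ hx, G]
      congr 1
      exact tsum_eq_sum fun i hi => by
        rw [lp.single_apply_ne _ _ _ (by simp at hi; omega), smul_zero]
    have h1 : LinearIndependent 𝕜 fun j : ℕ => (lp.single ⊤ j (1 : 𝕜) : B 𝕜) := by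
      rw [linearIndependent_iff']
      intro s g hg i hi
      have := congrArg (fun a : B 𝕜 => a i) hg
      simp only [lp.coeFn_sum, Finset.sum_apply, lp.coeFn_smul, Pi.smul_apply, lp.single_apply,
        lp.coeFn_zero, Pi.zero_apply] at this
      rw [Finset.sum_eq_single i (fun b _ hb => by simp [hb.symm]) (fun h => absurd hi h)] at this
      simpa using this
    have h2 := h1.map' (T 𝕜) (LinearMap.ker_eq_bot'.2 fun a ha => by
      have := T_lower a (ε := 0) fun x _ => by simp [ha]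
      exact norm_le_zero_iff.1 (by simpa using this))
    exact Module.Finite.not_linearIndependent_of_infinite
      (fun j : ℕ => (⟨_, hmem j⟩ : ↥(LinearMap.range (T 𝕜) ⊓ W)))
      (LinearIndependent.of_comp (LinearMap.range (T 𝕜) ⊓ W).subtype h2)
  · intro F f hF hf hf0 hconv
    refine ⟨?_, hf⟩
    choose a ha using fun m => (hF m).1
    have h0 := hconv 0
    simp only [iteratedDerivWithin_zero] at h0
    have hc : CauchySeq a := by
      rw [Metric.cauchySeq_iff']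
      intro ε hε
      obtain ⟨N, hN⟩ := eventually_atTop.1
        (Metric.tendstoUniformlyOn_iff.1 h0 (ε / 8) (by positivity))
      refine ⟨N, fun m hm => ?_⟩
      rw [dist_eq_norm]
      have := T_lower (a m - a N) (ε := ε / 4) fun x hx => by
        rw [map_sub, ha, ha, Pi.sub_apply, ← dist_eq_norm]
        linarith [dist_triangle_left (F m x) (F N x) (f x), hN m hm x hx, hN N le_rfl x hx]
      linarith
    obtain ⟨b, hb⟩ := cauchySeq_tendsto_of_complete hc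
    refine ⟨b, funext fun x => ?_⟩
    by_cases hx : x ∈ Icc (0 : ℝ) 1
    · refine tendsto_nhds_unique ?_ (h0.tendsto_at hx)
      obtain ⟨c, hc⟩ := T_bound (𝕜 := 𝕜) x
      rw [tendsto_iff_norm_sub_tendsto_zero] at hb ⊢
      refine squeeze_zero (fun m => norm_nonneg _) (fun m => ?_) (by simpa using hb.const_mul c)
      have := hc (a m - b)
      rwa [map_sub, ha] at this
    · rw [T_out b hx, hf0 x hx]
  · rintro _ ⟨⟨a, rfl⟩, ha⟩ h0 x hx r hr
    exact singular a ha (fun h => h0 (by rw [h, map_zero])) hx hr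

end Pool.Agent.Results.MP_ffb385_an.Spaceable
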